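import Pool.Agent.Helper129.QG.Tri

set_option autoImplicit false

namespace Pool.Agent.Helper129.QG

open Set

lemma e3_eq {x y : E3} (h0 : x 0 = y 0) (h1 : x 1 = y 1) (h2 : x 2 = y 2) : x = y := by
  ext i
  fin_cases i
  · exact h0
  · exact h1
  · exact h2

@[simp] lemma F0 (s : ℝ × ℝ) : F s 0 = tri s.2 := rfl
@[simp] lemma F1 (s : ℝ × ℝ) : F s 1 = tri s.1 := rfl
@[simp] lemma F2 (s : ℝ × ℝ) : F s 2 = tri (s.1 + s.2) := rfl
@[simp] lemma DF0 (s w : ℝ × ℝ) : DF s w 0 = dtri s.2 w.2 := rfl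
@[simp] lemma DF1 (s w : ℝ × ℝ) : DF s w 1 = dtri s.1 w.1 := rfl
@[simp] lemma DF2 (s w : ℝ × ℝ) : DF s w 2 = dtri (s.1 + s.2) (w.1 + w.2) := rfl

lemma norm_sq (x : E3) : ‖x‖ ^ 2 = x 0 ^ 2 + x 1 ^ 2 + x 2 ^ 2 := by
  rw [EuclideanSpace.norm_sq_eq, Fin.sum_univ_three]
  simp [sq_abs]

lemma DF_norm (s w : ℝ × ℝ) : ‖DF s w‖ ^ 2 = Q w := by
  rw [norm_sq, DF0, DF1, DF2, dtri_sq, dtri_sq, dtri_sq]
  unfold Q
  ring

lemma DF_norm_one {s w : ℝ × ℝ} (h : Q w = 1) : ‖DF s w‖ = 1 := by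
  have := DF_norm s w
  rw [h] at this
  have h0 := norm_nonneg (DF s w)
  nlinarith

lemma DF_lip (s w w' : ℝ × ℝ) : ‖DF s w - DF s w'‖ ^ 2 ≤ Q (w - w') := by
  rw [norm_sq]
  have h0 := dtri_lip_sq s.2 w.2 w'.2
  have h1 := dtri_lip_sq s.1 w.1 w'.1
  have h2 := dtri_lip_sq (s.1 + s.2) (w.1 + w.2) (w'.1 + w'.2)
  have e0 : (DF s w - DF s w') 0 = dtri s.2 w.2 - dtri s.2 w'.2 := rfl
  have e1 : (DF s w - DF s w') 1 = dtri s.1 w.1 - dtri s.1 w'.1 := rfl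
  have e2 : (DF s w - DF s w') 2 = dtri (s.1 + s.2) (w.1 + w.2) - dtri (s.1 + s.2) (w'.1 + w'.2) := rfl
  rw [e0, e1, e2]
  have e3 : Q (w - w') = 4 * (w.2 - w'.2) ^ 2 + 4 * (w.1 - w'.1) ^ 2 +
      4 * (w.1 + w.2 - (w'.1 + w'.2)) ^ 2 := by
    unfold Q
    simp only [Prod.fst_sub, Prod.snd_sub]
    ring
  linarith

lemma DF_smul (s : ℝ × ℝ) {a : ℝ} (ha : 0 ≤ a) (w : ℝ × ℝ) : DF s (a • w) = a • DF s w := by
  refine e3_eq ?_ ?_ ?_
  · show dtri s.2 (a • w).2 = a * dtri s.2 w.2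
    rw [Prod.smul_snd, smul_eq_mul, dtri_smul _ ha]
  · show dtri s.1 (a • w).1 = a * dtri s.1 w.1
    rw [Prod.smul_fst, smul_eq_mul, dtri_smul _ ha]
  · show dtri (s.1 + s.2) ((a • w).1 + (a • w).2) = a * dtri (s.1 + s.2) (w.1 + w.2)
    rw [Prod.smul_snd, Prod.smul_fst, smul_eq_mul, smul_eq_mul, ← mul_add, dtri_smul _ ha]

/-- `F` along a short segment -/
lemma F_dir (s w : ℝ × ℝ) : ∃ ε : ℝ, 0 < ε ∧ ∀ r : ℝ, 0 ≤ r → r < ε →
    F (s + r • w) = F s + r • DF s w := by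
  obtain ⟨a, ha, h1⟩ := tri_dir s.1 w.1
  obtain ⟨b, hb, h2⟩ := tri_dir s.2 w.2
  obtain ⟨c, hc, h3⟩ := tri_dir (s.1 + s.2) (w.1 + w.2)
  refine ⟨min a (min b c), lt_min ha (lt_min hb hc), fun r h0 hr => ?_⟩
  have r1 := lt_of_lt_of_le hr (min_le_left _ _)
  have r2 := lt_of_lt_of_le hr ((min_le_right _ _).trans (min_le_left _ _))
  have r3 := lt_of_lt_of_le hr ((min_le_right _ _).trans (min_le_right _ _))
  refine e3_eq ?_ ?_ ?_
  · show tri (s.2 + r * w.2) = tri s.2 + r * dtri s.2 w.2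
    exact h2 r h0 r2
  · show tri (s.1 + r * w.1) = tri s.1 + r * dtri s.1 w.1
    exact h1 r h0 r1
  · show tri ((s.1 + r * w.1) + (s.2 + r * w.2)) = tri (s.1 + s.2) + r * dtri (s.1 + s.2) (w.1 + w.2)
    rw [← h3 r h0 r3]
    congr 1
    ring

/-- rotation by a quarter turn in the flat metric -/
noncomputable def J (w : ℝ × ℝ) : ℝ × ℝ := (-(w.1 + 2 * w.2) / √3, (2 * w.1 + w.2) / √3)

lemma Q_comb (w : ℝ × ℝ) (a b : ℝ) : Q (a • w + b • J w) = (a ^ 2 + b ^ 2) * Q w := by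
  have h3 : (√3 : ℝ) ^ 2 = 3 := Real.sq_sqrt (by norm_num)
  have h3' : (√3 : ℝ) ≠ 0 := by positivity
  unfold Q J
  simp only [Prod.fst_add, Prod.snd_add, Prod.smul_fst, Prod.smul_snd, smul_eq_mul]
  field_simp
  ring_nf
  rw [show (√3 : ℝ) ^ 2 = 3 from h3]
  ring

/-- the unit circle of the flat metric -/
noncomputable def W (w : ℝ × ℝ) (θ : ℝ) : ℝ × ℝ := Real.cos θ • w + Real.sin θ • J w

lemma Q_W {w : ℝ × ℝ} (h : Q w = 1) (θ : ℝ) : Q (W w θ) = 1 := by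
  unfold W
  rw [Q_comb, h, Real.cos_sq_add_sin_sq, one_mul]

lemma Q_W_sub {w : ℝ × ℝ} (h : Q w = 1) (θ θ' : ℝ) :
    Q (W w θ - W w θ') = 2 - 2 * Real.cos (θ - θ') := by
  have e : W w θ - W w θ' = (Real.cos θ - Real.cos θ') • w + (Real.sin θ - Real.sin θ') • J w := by
    unfold W
    module
  rw [e, Q_comb, h, Real.cos_sub]
  have h1 := Real.cos_sq_add_sin_sq θ
  have h2 := Real.cos_sq_add_sin_sq θ'
  nlinarith

lemma Q_W_add {w : ℝ × ℝ} (h : Q w = 1) (θ θ' : ℝ) :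
    Q (W w θ + W w θ') = 2 + 2 * Real.cos (θ - θ') := by
  have e : W w θ + W w θ' = (Real.cos θ + Real.cos θ') • w + (Real.sin θ + Real.sin θ') • J w := by
    unfold W
    module
  rw [e, Q_comb, h, Real.cos_sub]
  have h1 := Real.cos_sq_add_sin_sq θ
  have h2 := Real.cos_sq_add_sin_sq θ'
  nlinarith

lemma W_surj {w : ℝ × ℝ} (h : Q w = 1) {v : ℝ × ℝ} (hv : Q v = 1) :
    ∃ θ : ℝ, 0 ≤ θ ∧ θ < 2 * Real.pi ∧ W w θ = v := by
  have h3 : (√3 : ℝ) ^ 2 = 3 := Real.sq_sqrt (by norm_num)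
  have h3' : (√3 : ℝ) ≠ 0 := by positivity
  set a : ℝ := 4 * (2 * v.1 * w.1 + 2 * v.2 * w.2 + v.1 * w.2 + v.2 * w.1) with ha
  set b : ℝ := 4 * √3 * (v.2 * w.1 - v.1 * w.2) with hb
  have e : a • w + b • J w = v := by
    unfold Q at h
    refine Prod.ext ?_ ?_
    · simp only [J, Prod.fst_add, Prod.smul_fst, smul_eq_mul]
      rw [ha, hb]
      field_simp
      linear_combination v.1 * h
    · simp only [J, Prod.snd_add, Prod.smul_snd, smul_eq_mul]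
      rw [ha, hb]
      field_simp
      linear_combination v.2 * h
  have hab : a ^ 2 + b ^ 2 = 1 := by
    have := Q_comb w a b
    rw [e, hv, h, mul_one] at this
    exact this.symm
  -- the angle
  have hz : ‖(⟨a, b⟩ : ℂ)‖ = 1 := by
    rw [Complex.norm_def, Complex.normSq_mk, ← sq, ← sq, hab, Real.sqrt_one]
  have hz0 : (⟨a, b⟩ : ℂ) ≠ 0 := by
    intro h0
    rw [h0, norm_zero] at hz
    exact zero_ne_one hz
  have hc : Real.cos (Complex.arg ⟨a, b⟩) = a := by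
    rw [Complex.cos_arg hz0, hz]; simp
  have hs : Real.sin (Complex.arg ⟨a, b⟩) = b := by
    rw [Complex.sin_arg, hz]; simp
  have h1 := Complex.neg_pi_lt_arg (⟨a, b⟩ : ℂ)
  have h2 := Complex.arg_le_pi (⟨a, b⟩ : ℂ)
  have hpi := Real.pi_pos
  rcases lt_or_ge (Complex.arg ⟨a, b⟩) 0 with h4 | h4
  · refine ⟨Complex.arg ⟨a, b⟩ + 2 * Real.pi, by linarith, by linarith, ?_⟩
    unfold W
    rw [Real.cos_add_two_pi, Real.sin_add_two_pi, hc, hs, e]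
  · refine ⟨Complex.arg ⟨a, b⟩, h4, by linarith, ?_⟩
    unfold W
    rw [hc, hs, e]

/-- `s` is a lattice point -/
def IsV (s : ℝ × ℝ) : Prop := IsI s.1 ∧ IsI s.2

lemma Q_eq_zero {w : ℝ × ℝ} (h : Q w = 0) : w = 0 := by
  unfold Q at h
  have h1 : w.1 ^ 2 + w.1 * w.2 + w.2 ^ 2 = 0 := by linarith
  have h2 : w.2 = 0 := by nlinarith [sq_nonneg (2 * w.1 + w.2), sq_nonneg w.2]
  have h3 : w.1 = 0 := by nlinarith [sq_nonneg (2 * w.2 + w.1), sq_nonneg w.1]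
  exact Prod.ext h3 h2

lemma DF_inj {s : ℝ × ℝ} (hs : ¬ IsV s) {w w' : ℝ × ℝ} (h : DF s w = DF s w') : w = w' := by
  have h0 : dtri s.2 w.2 = dtri s.2 w'.2 := congrArg (fun x : E3 => x 0) h
  have h1 : dtri s.1 w.1 = dtri s.1 w'.1 := congrArg (fun x : E3 => x 1) h
  have h2 : dtri (s.1 + s.2) (w.1 + w.2) = dtri (s.1 + s.2) (w'.1 + w'.2) :=
    congrArg (fun x : E3 => x 2) h
  by_cases a1 : IsI s.1
  · have a2 : ¬ IsI s.2 := fun a2 => hs ⟨a1, a2⟩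
    have a3 : ¬ IsI (s.1 + s.2) := by
      rintro ⟨k, hk⟩
      obtain ⟨m, hm⟩ := a1
      exact a2 ⟨k - m, by push_cast; linarith⟩
    have b2 := dtri_inj a2 h0
    have b3 := dtri_inj a3 h2
    exact Prod.ext (by linarith) b2
  · have b1 := dtri_inj a1 h1
    by_cases a2 : IsI s.2
    · have a3 : ¬ IsI (s.1 + s.2) := by
        rintro ⟨k, hk⟩
        obtain ⟨m, hm⟩ := a2
        exact a1 ⟨k - m, by push_cast; linarith⟩
      have b3 := dtri_inj a3 h2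
      exact Prod.ext b1 (by linarith)
    · exact Prod.ext b1 (dtri_inj a2 h0)

lemma DF_pm {s w w' : ℝ × ℝ} (h : DF s w = DF s w') : w = w' ∨ w = -w' := by
  have h0 : |w.2| = |w'.2| := dtri_abs_inj (x := s.2) (congrArg (fun x : E3 => x 0) h)
  have h1 : |w.1| = |w'.1| := dtri_abs_inj (x := s.1) (congrArg (fun x : E3 => x 1) h)
  have h2 : |w.1 + w.2| = |w'.1 + w'.2| :=
    dtri_abs_inj (x := s.1 + s.2) (congrArg (fun x : E3 => x 2) h)
  rcases abs_eq_abs.1 h0 with a | a <;> rcases abs_eq_abs.1 h1 with b | b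
  · exact Or.inl (Prod.ext b a)
  · rcases abs_eq_abs.1 h2 with c | c
    · exact Or.inl (Prod.ext (by linarith) a)
    · exact Or.inr (Prod.ext b (by simp only [Prod.snd_neg]; linarith))
  · rcases abs_eq_abs.1 h2 with c | c
    · exact Or.inl (Prod.ext b (by linarith))
    · exact Or.inr (Prod.ext (by simp only [Prod.fst_neg]; linarith) a)
  · exact Or.inr (Prod.ext b a)

lemma DF_neg {s : ℝ × ℝ} (hs : IsV s) (w : ℝ × ℝ) : DF s (-w) = DF s w := by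
  have a3 : IsI (s.1 + s.2) := by
    obtain ⟨k, hk⟩ := hs.1
    obtain ⟨m, hm⟩ := hs.2
    exact ⟨k + m, by push_cast; linarith⟩
  refine e3_eq ?_ ?_ ?_
  · show dtri s.2 (-w).2 = dtri s.2 w.2
    rw [Prod.snd_neg, dtri_neg hs.2]
  · show dtri s.1 (-w).1 = dtri s.1 w.1
    rw [Prod.fst_neg, dtri_neg hs.1]
  · show dtri (s.1 + s.2) ((-w).1 + (-w).2) = dtri (s.1 + s.2) (w.1 + w.2)
    rw [Prod.fst_neg, Prod.snd_neg, ← neg_add, dtri_neg a3]

/-- the surface contains all values of `F` -/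
lemma F_surface (s : ℝ × ℝ) : F s ∈ tet ∧ (F s 0 + F s 1 - F s 2 = 1 ∨ F s 0 - F s 1 + F s 2 = 1 ∨
    -F s 0 + F s 1 + F s 2 = 1 ∨ -F s 0 - F s 1 - F s 2 = 1) := by
  obtain ⟨k, hk⟩ : ∃ k : ℤ, k = ⌊s.1⌋ := ⟨_, rfl⟩
  obtain ⟨l, hl⟩ : ∃ l : ℤ, l = ⌊s.2⌋ := ⟨_, rfl⟩
  set a : ℝ := s.1 - k with ha
  set b : ℝ := s.2 - l with hb
  have a0 : 0 ≤ a := by rw [ha, hk]; linarith [Int.floor_le s.1]
  have a1 : a ≤ 1 := by rw [ha, hk]; linarith [Int.lt_floor_add_one s.1]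
  have b0 : 0 ≤ b := by rw [hb, hl]; linarith [Int.floor_le s.2]
  have b1 : b ≤ 1 := by rw [hb, hl]; linarith [Int.lt_floor_add_one s.2]
  have ev : ∀ (j : ℤ) (x : ℝ), Even j → tri (x + j) = tri x := by
    rintro j x ⟨m, hm⟩
    rw [hm]
    push_cast
    rw [← two_mul, tri_add_even]
  have od : ∀ (j : ℤ) (x : ℝ), Odd j → tri (x + j) = -tri x := by
    rintro j x ⟨m, hm⟩
    rw [hm]
    push_cast
    rw [← add_assoc, tri_add_one, tri_add_even]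
  have t1 : tri s.1 = tri (a + k) := by rw [ha]; congr 1; ring
  have t2 : tri s.2 = tri (b + l) := by rw [hb]; congr 1; ring
  have t3 : tri (s.1 + s.2) = tri ((a + b) + ((k + l : ℤ) : ℝ)) := by
    rw [ha, hb]; push_cast; congr 1; ring
  have ta : tri a = 1 - 2 * a := tri_Icc a0 a1
  have tb : tri b = 1 - 2 * b := tri_Icc b0 b1
  have tab : (a + b ≤ 1 ∧ tri (a + b) = 1 - 2 * (a + b)) ∨
      (1 ≤ a + b ∧ tri (a + b) = 2 * (a + b) - 3) := by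
    rcases le_total (a + b) 1 with h | h
    · exact Or.inl ⟨h, tri_Icc (by linarith) h⟩
    · refine Or.inr ⟨h, ?_⟩
      rw [tri_left (k := 1) (by push_cast; linarith) (by push_cast; linarith)]
      push_cast
      ring
  simp only [tet, mem_ofPred_eq, F0, F1, F2]
  rw [t1, t2, t3]
  rcases Int.even_or_odd k with hk' | hk' <;> rcases Int.even_or_odd l with hl' | hl'
  · rw [ev k a hk', ev l b hl', ev (k + l) _ (hk'.add hl'), ta, tb]
    rcases tab with ⟨h1, h2⟩ | ⟨h1, h2⟩ <;> rw [h2]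
    · exact ⟨⟨by linarith, by linarith, by linarith, by linarith⟩, Or.inl (by ring)⟩
    · exact ⟨⟨by linarith, by linarith, by linarith, by linarith⟩, Or.inr (Or.inr (Or.inr (by ring)))⟩
  · rw [ev k a hk', od l b hl', od (k + l) _ (hk'.add_odd hl'), ta, tb]
    rcases tab with ⟨h1, h2⟩ | ⟨h1, h2⟩ <;> rw [h2]
    · exact ⟨⟨by linarith, by linarith, by linarith, by linarith⟩, Or.inr (Or.inr (Or.inl (by ring)))⟩
    · exact ⟨⟨by linarith, by linarith, by linarith, by linarith⟩, Or.inr (Or.inl (by ring))⟩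
  · rw [od k a hk', ev l b hl', od (k + l) _ (hk'.add_even hl'), ta, tb]
    rcases tab with ⟨h1, h2⟩ | ⟨h1, h2⟩ <;> rw [h2]
    · exact ⟨⟨by linarith, by linarith, by linarith, by linarith⟩, Or.inr (Or.inl (by ring))⟩
    · exact ⟨⟨by linarith, by linarith, by linarith, by linarith⟩, Or.inr (Or.inr (Or.inl (by ring)))⟩
  · rw [od k a hk', od l b hl', ev (k + l) _ (hk'.add_odd hl'), ta, tb]
    rcases tab with ⟨h1, h2⟩ | ⟨h1, h2⟩ <;> rw [h2]
    · exact ⟨⟨by linarith, by linarith, by linarith, by linarith⟩, Or.inr (Or.inr (Or.inr (by ring)))⟩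
    · exact ⟨⟨by linarith, by linarith, by linarith, by linarith⟩, Or.inl (by ring)⟩

lemma F_mem_frontier (hF : TaskFrontier) (s : ℝ × ℝ) : F s ∈ frontier tet := by
  rw [hF.2.1]
  exact F_surface s

lemma dir_eq (hF : TaskFrontier) (hL : TaskLink) (s : ℝ × ℝ) :
    directions tet (F s) = {x | ∃ w : ℝ × ℝ, Q w = 1 ∧ DF s w = x} := by
  ext x
  constructor
  · exact fun h => hL s x h
  · rintro ⟨w, hw, rfl⟩
    refine ⟨DF_norm_one hw, ?_⟩
    obtain ⟨ε, hε, h⟩ := F_dir s w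
    refine ⟨ε, hε, fun r h0 h1 => ?_⟩
    rw [← h r h0 h1]
    exact F_mem_frontier hF _

lemma c_lip {s w : ℝ × ℝ} (hw : Q w = 1) : LipschitzWith 1 (fun θ => DF s (W w θ)) := by
  refine LipschitzWith.of_dist_le_mul fun θ θ' => ?_
  rw [dist_eq_norm, Real.dist_eq, NNReal.coe_one, one_mul]
  have h1 := DF_lip s (W w θ) (W w θ')
  rw [Q_W_sub hw] at h1
  have h2 := Real.one_sub_sq_div_two_le_cos (x := θ - θ')
  have h3 : ‖DF s (W w θ) - DF s (W w θ')‖ ^ 2 ≤ |θ - θ'| ^ 2 := by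
    rw [sq_abs]; linarith
  exact le_of_sq_le_sq h3 (abs_nonneg _)

end Pool.Agent.Helper129.QG
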