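import Pool.Agent.Helper129.QG.Side

set_option autoImplicit false

namespace Pool.Agent.Helper129.QG

open Set

/-- the path in the plane: from `(0, 0)` to `(n, 1)` and on to `(-2, 0)` -/
noncomputable def path (n : ℕ) (t : ℝ) : ℝ × ℝ :=
  (n * t - (2 * n + 2) * max (t - 1) 0, t - 2 * max (t - 1) 0)

lemma path_le {n : ℕ} {t : ℝ} (h : t ≤ 1) : path n t = (n * t, t) := by
  unfold path
  rw [max_eq_right (by linarith)]
  simp

lemma path_ge {n : ℕ} {t : ℝ} (h : 1 ≤ t) : path n t = ((n + 2) * (2 - t) - 2, 2 - t) := by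
  unfold path
  rw [max_eq_left (by linarith)]
  refine Prod.ext ?_ ?_
  · show (n : ℝ) * t - (2 * n + 2) * (t - 1) = (n + 2) * (2 - t) - 2
    ring
  · show t - 2 * (t - 1) = 2 - t
    ring

/-- the curve -/
noncomputable def cur (n : ℕ) (t : ℝ) : E3 := F (path n t)

lemma cur_le {n : ℕ} {t : ℝ} (h : t ≤ 1) : cur n t = !₂[tri t, tri (n * t), tri ((n + 1) * t)] := by
  unfold cur F
  rw [path_le h]
  have : (n : ℝ) * t + t = (n + 1) * t := by ring
  rw [this]

lemma tri_sub_two (x : ℝ) : tri (x - 2) = tri x := by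
  have := tri_add_even (x - 2) 1
  push_cast at this
  rw [← this]
  congr 1
  ring

lemma cur_ge {n : ℕ} {t : ℝ} (h : 1 ≤ t) :
    cur n t = !₂[tri (2 - t), tri ((n + 2) * (2 - t)), tri ((n + 3) * (2 - t))] := by
  unfold cur F
  rw [path_ge h]
  have e : ((n : ℝ) + 2) * (2 - t) - 2 + (2 - t) = (n + 3) * (2 - t) - 2 := by ring
  show !₂[tri (2 - t), tri ((n + 2) * (2 - t) - 2), tri ((n + 2) * (2 - t) - 2 + (2 - t))] = _
  rw [e, tri_sub_two, tri_sub_two]

lemma cur_cont (n : ℕ) : Continuous (cur n) := by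
  unfold cur F path
  refine (PiLp.continuous_toLp 2 _).comp (continuous_pi fun i => ?_)
  have h1 : Continuous fun t : ℝ => t - 2 * max (t - 1) 0 := by fun_prop
  have h2 : Continuous fun t : ℝ => (n : ℝ) * t - (2 * n + 2) * max (t - 1) 0 := by fun_prop
  fin_cases i
  · exact tri_continuous.comp h1
  · exact tri_continuous.comp h2
  · exact tri_continuous.comp (h2.add h1)

lemma not_int {t : ℝ} (h0 : 0 < t) (h1 : t < 1) (k : ℤ) : t ≠ k := by
  intro h
  rw [h] at h0 h1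
  have a : 0 < k := by exact_mod_cast h0
  have b : k < 1 := by exact_mod_cast h1
  omega

lemma no_meet {n : ℕ} {t : ℝ} (h0 : 0 < t) (h1 : t < 1) (e1 : tri (n * t) = tri ((n + 2) * t))
    (e2 : tri ((n + 1) * t) = tri ((n + 3) * t)) : False := by
  obtain ⟨k, hk⟩ := tri_inj e1
  obtain ⟨l, hl⟩ := tri_inj e2
  rcases hk with hk | hk
  · exact not_int h0 h1 (-k) (by push_cast; linarith)
  · rcases hl with hl | hl
    · exact not_int h0 h1 (-l) (by push_cast; linarith)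
    · exact not_int h0 h1 (l - k) (by push_cast; linarith)

/-- the distance to the starting vertex along the branches -/
lemma tri_inj_Icc {x y : ℝ} (hx : 0 ≤ x) (hx' : x ≤ 1) (hy : 0 ≤ y) (hy' : y ≤ 1)
    (h : tri x = tri y) : x = y := by
  rw [tri_Icc hx hx', tri_Icc hy hy'] at h
  linarith

lemma cur_inj (n : ℕ) : InjOn (cur n) (Ico 0 2) := by
  have main : ∀ t t' : ℝ, 0 ≤ t → t ≤ 1 → 1 ≤ t' → t' < 2 → cur n t = cur n t' → t = t' := by
    intro t t' h0 h1 h2 h3 h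
    rw [cur_le h1, cur_ge h2] at h
    have a0 : tri t = tri (2 - t') := congrArg (fun x : E3 => x 0) h
    have a1 : tri (n * t) = tri ((n + 2) * (2 - t')) := congrArg (fun x : E3 => x 1) h
    have a2 : tri ((n + 1) * t) = tri ((n + 3) * (2 - t')) := congrArg (fun x : E3 => x 2) h
    have b := tri_inj_Icc h0 h1 (by linarith) (by linarith) a0
    rw [← b] at a1 a2
    rcases lt_or_eq_of_le h1 with h4 | h4
    · exact (no_meet (by linarith) h4 a1 a2).elim
    · linarith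
  intro t ht t' ht' h
  rcases le_total t 1 with h1 | h1 <;> rcases le_total t' 1 with h2 | h2
  · rw [cur_le h1, cur_le h2] at h
    exact tri_inj_Icc ht.1 h1 ht'.1 h2 (congrArg (fun x : E3 => x 0) h)
  · exact main t t' ht.1 h1 h2 ht'.2 h
  · exact (main t' t ht'.1 h2 h1 ht.2 h.symm).symm
  · rw [cur_ge h1, cur_ge h2] at h
    have := tri_inj_Icc (by linarith [ht.2]) (by linarith) (by linarith [ht'.2]) (by linarith)
      (congrArg (fun x : E3 => x 0) h)
    linarith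

lemma vec_ne {a b : ℝ} (h : b ≠ 0) : ((a, b) : ℝ × ℝ) ≠ 0 := fun e => h (congrArg Prod.snd e)

lemma quasi (hF : TaskFrontier) (hL : TaskLink) (n : ℕ) :
    IsSimpleClosedQuasigeodesic tet (cur n '' Icc 0 2) := by
  have hper : ∀ w, DF (path n 2) w = DF (path n 0) w := by
    intro w
    rw [path_ge (by norm_num), path_le (by norm_num)]
    refine e3_eq ?_ ?_ ?_
    · show dtri (2 - 2) w.2 = dtri 0 w.2
      norm_num
    · show dtri (((n : ℝ) + 2) * (2 - 2) - 2) w.1 = dtri ((n : ℝ) * 0) w.1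
      rw [dtri_even (k := -1) (by push_cast; ring), dtri_even (k := 0) (by push_cast; ring)]
    · show dtri (((n : ℝ) + 2) * (2 - 2) - 2 + (2 - 2)) (w.1 + w.2) = dtri ((n : ℝ) * 0 + 0) (w.1 + w.2)
      rw [dtri_even (k := -1) (by push_cast; ring), dtri_even (k := 0) (by push_cast; ring)]
  have hv : IsV (path n 1) := by
    rw [path_le le_rfl]
    exact ⟨⟨n, by push_cast; ring⟩, ⟨1, by push_cast; ring⟩⟩
  have hv0 : IsV (path n 0) := by
    rw [path_le (by norm_num)]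
    exact ⟨⟨0, by push_cast; ring⟩, ⟨0, by push_cast; ring⟩⟩
  have hn : ∀ t, 0 < t → t < 2 → t ≠ 1 → ¬ IsV (path n t) := by
    intro t h0 h2 h1 h
    obtain ⟨k, hk⟩ := h.2
    rcases lt_or_gt_of_ne h1 with h3 | h3
    · rw [path_le h3.le] at hk
      exact not_int h0 h3 k hk
    · rw [path_ge h3.le] at hk
      exact not_int (by linarith) (by linarith) k hk
  -- the four local forms of the path
  have f1 : ∀ t, t < 1 → ∃ ε : ℝ, 0 < ε ∧ ∀ r : ℝ, 0 ≤ r → r < ε →
      path n (t + r) = path n t + r • (((n : ℝ), 1) : ℝ × ℝ) := by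
    intro t ht
    refine ⟨1 - t, by linarith, fun r h0 h1 => ?_⟩
    rw [path_le (by linarith), path_le ht.le]
    refine Prod.ext ?_ ?_
    · show (n : ℝ) * (t + r) = n * t + r * n
      ring
    · show t + r = t + r * 1
      ring
  have b1 : ∀ t, 0 < t → t ≤ 1 → ∃ ε : ℝ, 0 < ε ∧ ∀ r : ℝ, 0 ≤ r → r < ε →
      path n (t - r) = path n t + r • (-((n : ℝ), 1) : ℝ × ℝ) := by
    intro t ht ht'
    refine ⟨1, by linarith, fun r h0 h1 => ?_⟩
    rw [path_le (by linarith), path_le ht']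
    refine Prod.ext ?_ ?_
    · show (n : ℝ) * (t - r) = n * t + r * (-n)
      ring
    · show t - r = t + r * (-1)
      ring
  have f2 : ∀ t, 1 ≤ t → ∃ ε : ℝ, 0 < ε ∧ ∀ r : ℝ, 0 ≤ r → r < ε →
      path n (t + r) = path n t + r • (-((n : ℝ) + 2, 1) : ℝ × ℝ) := by
    intro t ht
    refine ⟨1, by linarith, fun r h0 h1 => ?_⟩
    rw [path_ge (by linarith), path_ge ht]
    refine Prod.ext ?_ ?_
    · show ((n : ℝ) + 2) * (2 - (t + r)) - 2 = (n + 2) * (2 - t) - 2 + r * (-(n + 2))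
      ring
    · show 2 - (t + r) = 2 - t + r * (-1)
      ring
  have b2 : ∀ t, 1 < t → ∃ ε : ℝ, 0 < ε ∧ ∀ r : ℝ, 0 ≤ r → r < ε →
      path n (t - r) = path n t + r • (((n : ℝ) + 2, 1) : ℝ × ℝ) := by
    intro t ht
    refine ⟨t - 1, by linarith, fun r h0 h1 => ?_⟩
    rw [path_ge (by linarith), path_ge ht.le]
    refine Prod.ext ?_ ?_
    · show ((n : ℝ) + 2) * (2 - (t - r)) - 2 = (n + 2) * (2 - t) - 2 + r * (n + 2)
      ring
    · show 2 - (t - r) = 2 - t + r * 1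
      ring
  have n1 : (((n : ℝ), 1) : ℝ × ℝ) ≠ 0 := vec_ne one_ne_zero
  have n2 : (((n : ℝ) + 2, 1) : ℝ × ℝ) ≠ 0 := vec_ne one_ne_zero
  refine ⟨cur n, 2, by norm_num, (cur_cont n).continuousOn, ?_, cur_inj n, rfl, ?_, ?_, ?_⟩
  · rw [cur_ge (by norm_num), cur_le (by norm_num)]
    norm_num
  · rintro _ ⟨t, _, rfl⟩
    exact F_mem_frontier hF _
  · intro t ht
    rcases lt_trichotomy t 1 with h | h | h
    · refine ⟨_, _, forward_of n1 (f1 t h), backward_of (neg_ne_zero.2 n1) (b1 t ht.1 h.le), ?_⟩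
      rw [un_neg]
      exact side_smooth hF hL (hn t ht.1 ht.2 h.ne) (Q_un n1)
    · subst h
      exact ⟨_, _, forward_of (neg_ne_zero.2 n2) (f2 1 le_rfl),
        backward_of (neg_ne_zero.2 n1) (b1 1 one_pos le_rfl),
        side_vertex hF hL hv (Q_un (neg_ne_zero.2 n2)) (Q_un (neg_ne_zero.2 n1))⟩
    · refine ⟨_, _, forward_of (neg_ne_zero.2 n2) (f2 t h.le), backward_of n2 (b2 t h), ?_⟩
      rw [show un ((n : ℝ) + 2, 1) = -un (-((n : ℝ) + 2, 1)) by rw [un_neg, neg_neg]]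
      exact side_smooth hF hL (hn t ht.1 ht.2 h.ne') (Q_un (neg_ne_zero.2 n2))
  · refine ⟨_, _, forward_of n1 (f1 0 one_pos), backward_of n2 (b2 2 (by norm_num)), ?_⟩
    rw [hper]
    exact side_vertex hF hL hv0 (Q_un n1) (Q_un n2)

lemma cur_slice {n : ℕ} {t : ℝ} (ht : t ∈ Icc (0 : ℝ) 2) {τ : ℝ} (h0 : 0 < τ) (h1 : ((n : ℝ) + 2) * τ ≤ 1)
    (h : cur n t 0 = 1 - 2 * τ) : cur n t 1 = 1 - 2 * (n * τ) ∨ cur n t 1 = 1 - 2 * ((n + 2) * τ) := by
  have hn : (0 : ℝ) ≤ n := Nat.cast_nonneg n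
  rcases le_total t 1 with h2 | h2
  · rw [cur_le h2] at h ⊢
    have a : tri t = 1 - 2 * τ := h
    rw [tri_Icc ht.1 h2] at a
    have b : t = τ := by linarith
    left
    show tri (n * t) = _
    rw [b, tri_Icc (by positivity) (by nlinarith)]
  · rw [cur_ge h2] at h ⊢
    have a : tri (2 - t) = 1 - 2 * τ := h
    rw [tri_Icc (by linarith [ht.2]) (by linarith)] at a
    have b : 2 - t = τ := by linarith
    right
    show tri ((n + 2) * (2 - t)) = _
    rw [b, tri_Icc (by positivity) h1]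

lemma cur_distinct {n m : ℕ} (hnm : n < m) : cur n '' Icc 0 2 ≠ cur m '' Icc 0 2 := by
  intro h
  have hm0 : (0 : ℝ) < (m : ℝ) + 2 := by positivity
  set τ : ℝ := 1 / ((m : ℝ) + 2) with hτ
  have h0 : 0 < τ := by positivity
  have h1 : ((m : ℝ) + 2) * τ = 1 := by rw [hτ]; field_simp
  have hn : (n : ℝ) + 1 ≤ m := by exact_mod_cast hnm
  have hn0 : (0 : ℝ) ≤ n := Nat.cast_nonneg n
  have h2 : τ ≤ 1 := by nlinarith
  have h3 : cur n τ ∈ cur n '' Icc 0 2 := ⟨τ, ⟨h0.le, by linarith⟩, rfl⟩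
  rw [h] at h3
  obtain ⟨t, ht, h4⟩ := h3
  have e := cur_le (n := n) h2
  have c0 : cur n τ 0 = 1 - 2 * τ := by
    rw [e]
    exact tri_Icc h0.le h2
  have c1 : cur n τ 1 = 1 - 2 * (n * τ) := by
    rw [e]
    exact tri_Icc (by positivity) (by nlinarith)
  have := cur_slice (n := m) ht h0 h1.le (by rw [h4, c0])
  rw [h4, c1] at this
  rcases this with h5 | h5
  · nlinarith
  · nlinarith

lemma cur_injective : Function.Injective (fun n : ℕ => cur n '' Icc 0 2) := by
  intro n m h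
  rcases lt_trichotomy n m with h1 | h1 | h1
  · exact (cur_distinct h1 h).elim
  · exact h1
  · exact (cur_distinct h1 h.symm).elim

theorem infinite_tet (hF : TaskFrontier) (hL : TaskLink) : (vertexQuasigeodesics tet).Infinite := by
  refine Set.infinite_of_injective_forall_mem cur_injective fun n => ⟨quasi hF hL n, ?_⟩
  refine ⟨cur n 0, ⟨0, ⟨le_rfl, by norm_num⟩, rfl⟩, ?_⟩
  rw [hF.2.2.1, cur_le (by norm_num)]
  have h0 : tri 0 = 1 := by rw [tri_Icc le_rfl zero_le_one]; norm_num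
  rw [mul_zero, mul_zero, h0]
  unfold verts
  simp

theorem polytope_tet (hH : TaskHull) (hF : TaskFrontier) : IsPolytope tet 4 := by
  refine ⟨⟨verts, hH⟩, hF.1, ?_⟩
  rw [hF.2.2.1, Set.ncard_coe_finset, hF.2.2.2]

theorem no_bound (hH : TaskHull) (hF : TaskFrontier) (hL : TaskLink) :
    ¬ ∃ f : ℕ → ℕ, ∀ (n : ℕ) (K : Set E3), IsPolytope K n →
      (vertexQuasigeodesics K).encard ≤ f n := by
  rintro ⟨f, hf⟩
  have h1 := hf 4 tet (polytope_tet hH hF)
  rw [(infinite_tet hF hL).encard_eq] at h1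
  exact absurd h1 (not_le.2 (ENat.natCast_lt_top _))

end Pool.Agent.Helper129.QG
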