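import Mathlib

/-!
# Simple closed quasigeodesics on convex polyhedra: definitions

(for `MP_c5a4a7_gt`)
-/

set_option autoImplicit false

namespace Pool.Agent.Helper129.QG

open Set

/-- Euclidean space of dimension three. -/
abbrev E3 : Type := EuclideanSpace ℝ (Fin 3)

/-- `K` is a nondegenerate convex polytope in `ℝ³` with `n` vertices. -/
def IsPolytope (K : Set E3) (n : ℕ) : Prop :=
  (∃ S : Finset E3, K = convexHull ℝ (S : Set E3)) ∧ (interior K).Nonempty ∧
    (extremePoints ℝ K).ncard = n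

/-- The directions of the surface `frontier K` at its point `p`: the unit vectors `x` such that a short
segment from `p` in the direction `x` lies on the surface. -/
def directions (K : Set E3) (p : E3) : Set E3 :=
  {x | ‖x‖ = 1 ∧ ∃ ε : ℝ, 0 < ε ∧ ∀ r : ℝ, 0 ≤ r → r < ε → p + r • x ∈ frontier K}

/-- The two sides at `p` of a curve on the surface `frontier K` which passes through `p`, with the
directions `u` and `v` of its two branches, have surface angles at most `π`: the closed curve of all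
directions of the surface at `p` is traced once by `c` on `[0, ω)`, with speed at most one, from `c 0 = u`
over `c a = v` back to `u`, and `a ≤ π` and `ω - a ≤ π`. -/
def SideAngles (K : Set E3) (p u v : E3) : Prop :=
  ∃ (c : ℝ → E3) (ω a : ℝ), 0 < ω ∧ LipschitzWith 1 c ∧ (∀ θ, c (θ + ω) = c θ) ∧
    InjOn c (Ico 0 ω) ∧ c '' Ico 0 ω = directions K p ∧ c 0 = u ∧ c a = v ∧
    0 ≤ a ∧ a ≤ ω ∧ a ≤ Real.pi ∧ ω - a ≤ Real.pi

/-- For a short time after `t`, `γ` runs with constant speed on a straight segment with the direction `u`. -/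
def Forward (γ : ℝ → E3) (t : ℝ) (u : E3) : Prop :=
  ‖u‖ = 1 ∧ ∃ a ε : ℝ, 0 < a ∧ 0 < ε ∧ ∀ r : ℝ, 0 ≤ r → r < ε → γ (t + r) = γ t + (a * r) • u

/-- Shortly before `t`, `γ` runs with constant speed on a straight segment which has the direction `v`, seen
from the point `γ t`. -/
def Backward (γ : ℝ → E3) (t : ℝ) (v : E3) : Prop :=
  ‖v‖ = 1 ∧ ∃ a ε : ℝ, 0 < a ∧ 0 < ε ∧ ∀ r : ℝ, 0 ≤ r → r < ε → γ (t - r) = γ t + (a * r) • v

/-- `Γ` is a simple closed quasigeodesic on the surface `frontier K`, parametrised by `γ` on `[0, L]`: near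
each of its points `γ` consists of two straight segments on the surface, and the surface angles between them
on both sides are at most `π` (in a face and on an edge both angles are then equal to `π`, that is, the
curve is locally a straight segment on the surface). -/
def IsSimpleClosedQuasigeodesic (K : Set E3) (Γ : Set E3) : Prop :=
  ∃ (γ : ℝ → E3) (L : ℝ), 0 < L ∧ ContinuousOn γ (Icc 0 L) ∧ γ L = γ 0 ∧ InjOn γ (Ico 0 L) ∧
    Γ = γ '' Icc 0 L ∧ Γ ⊆ frontier K ∧
    (∀ t ∈ Ioo 0 L, ∃ u v, Forward γ t u ∧ Backward γ t v ∧ SideAngles K (γ t) u v) ∧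
    ∃ u v, Forward γ 0 u ∧ Backward γ L v ∧ SideAngles K (γ 0) u v

/-- The simple closed quasigeodesics on the surface of `K` which pass through a vertex of `K`. -/
def vertexQuasigeodesics (K : Set E3) : Set (Set E3) :=
  {Γ | IsSimpleClosedQuasigeodesic K Γ ∧ (Γ ∩ extremePoints ℝ K).Nonempty}

/-! ### the regular tetrahedron and its folding map -/

/-- the regular tetrahedron -/
def tet : Set E3 := {p | p 0 + p 1 - p 2 ≤ 1 ∧ p 0 - p 1 + p 2 ≤ 1 ∧ -p 0 + p 1 + p 2 ≤ 1 ∧
  -p 0 - p 1 - p 2 ≤ 1}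

/-- its vertices -/
noncomputable def verts : Finset E3 :=
  {!₂[1, 1, 1], !₂[1, -1, -1], !₂[-1, 1, -1], !₂[-1, -1, 1]}

/-- the triangle wave, `1` at the even and `-1` at the odd integers -/
noncomputable def tri (x : ℝ) : ℝ := 1 - 2 * |x - 2 * ⌊(x + 1) / 2⌋|

/-- its derivative at `x` in the direction `h` -/
noncomputable def dtri (x h : ℝ) : ℝ :=
  if x = 2 * ⌊(x + 1) / 2⌋ then -2 * |h| else
    if x = 2 * ⌊(x + 1) / 2⌋ - 1 then 2 * |h| else
      if 2 * ⌊(x + 1) / 2⌋ < x then -2 * h else 2 * h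

/-- the folding map of the plane onto the surface of the tetrahedron -/
noncomputable def F (s : ℝ × ℝ) : E3 := !₂[tri s.2, tri s.1, tri (s.1 + s.2)]

/-- its derivative at `s` in the direction `w` -/
noncomputable def DF (s w : ℝ × ℝ) : E3 := !₂[dtri s.2 w.2, dtri s.1 w.1, dtri (s.1 + s.2) (w.1 + w.2)]

/-- the square of the length of `w` in the flat metric -/
def Q (w : ℝ × ℝ) : ℝ := 8 * (w.1 ^ 2 + w.1 * w.2 + w.2 ^ 2)

/-! ### tasks -/

/-- TASK A: the tetrahedron is the convex hull of its four vertices -/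
def TaskHull : Prop := tet = convexHull ℝ (verts : Set E3)

/-- TASK B: interior, frontier and extreme points of the tetrahedron -/
def TaskFrontier : Prop := (interior tet).Nonempty ∧
  frontier tet = {p | p ∈ tet ∧ (p 0 + p 1 - p 2 = 1 ∨ p 0 - p 1 + p 2 = 1 ∨ -p 0 + p 1 + p 2 = 1 ∨
    -p 0 - p 1 - p 2 = 1)} ∧
  extremePoints ℝ tet = (verts : Set E3) ∧ verts.card = 4

/-- TASK C: the directions at the points of the surface.  Hint: reduce to `0 ≤ s.1`, `0 ≤ s.2`,
`s.1 + s.2 ≤ 1` or do cases according to which of the three numbers are even / odd / not integers. -/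
def TaskLink : Prop := ∀ s : ℝ × ℝ, ∀ x : E3,
  x ∈ directions tet (F s) → ∃ w : ℝ × ℝ, Q w = 1 ∧ DF s w = x

end Pool.Agent.Helper129.QG
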