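import Pool.Agent.Helper129.QG.Angle

set_option autoImplicit false

namespace Pool.Agent.Helper129.QG

open Set Filter Topology

/-- the conditions on a direction `x` at `p` -/
def Act (p0 p1 p2 x0 x1 x2 : ℝ) : Prop :=
  (p0 + p1 - p2 = 1 → x0 + x1 - x2 ≤ 0) ∧ (p0 - p1 + p2 = 1 → x0 - x1 + x2 ≤ 0) ∧
  (-p0 + p1 + p2 = 1 → -x0 + x1 + x2 ≤ 0) ∧ (-p0 - p1 - p2 = 1 → -x0 - x1 - x2 ≤ 0) ∧
  ((p0 + p1 - p2 = 1 ∧ x0 + x1 - x2 = 0) ∨ (p0 - p1 + p2 = 1 ∧ x0 - x1 + x2 = 0) ∨
    (-p0 + p1 + p2 = 1 ∧ -x0 + x1 + x2 = 0) ∨ (-p0 - p1 - p2 = 1 ∧ -x0 - x1 - x2 = 0))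

lemma ev_lt (a b : ℝ) : ∀ᶠ r in 𝓝[>] (0 : ℝ), a < 1 → a + r * b < 1 := by
  by_cases h : a < 1
  · have h1 : Tendsto (fun r : ℝ => a + r * b) (𝓝[>] 0) (𝓝 (a + 0 * b)) :=
      (by fun_prop : Continuous fun r : ℝ => a + r * b).continuousAt.continuousWithinAt
    rw [zero_mul, add_zero] at h1
    filter_upwards [h1.eventually (gt_mem_nhds h)] with r hr _ using hr
  · exact Eventually.of_forall fun r h' => absurd h' h

lemma act_of (hF : TaskFrontier) {p x : E3} (hp : p ∈ tet) (hx : x ∈ directions tet p) :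
    Act (p 0) (p 1) (p 2) (x 0) (x 1) (x 2) := by
  obtain ⟨_, ε, hε, h⟩ := hx
  have e1 := ev_lt (p 0 + p 1 - p 2) (x 0 + x 1 - x 2)
  have e2 := ev_lt (p 0 - p 1 + p 2) (x 0 - x 1 + x 2)
  have e3 := ev_lt (-p 0 + p 1 + p 2) (-x 0 + x 1 + x 2)
  have e4 := ev_lt (-p 0 - p 1 - p 2) (-x 0 - x 1 - x 2)
  have e5 : ∀ᶠ r in 𝓝[>] (0 : ℝ), 0 < r ∧ r < ε := Ioo_mem_nhdsGT hε
  obtain ⟨r, a1, a2, a3, a4, r0, r1⟩ := (e1.and (e2.and (e3.and (e4.and e5)))).exists
  have h2 := h r r0.le r1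
  rw [hF.2.1] at h2
  obtain ⟨⟨b1, b2, b3, b4⟩, b5⟩ := h2
  obtain ⟨c1, c2, c3, c4⟩ := hp
  have v0 : (p + r • x) 0 = p 0 + r * x 0 := rfl
  have v1 : (p + r • x) 1 = p 1 + r * x 1 := rfl
  have v2 : (p + r • x) 2 = p 2 + r * x 2 := rfl
  rw [v0, v1, v2] at b1 b2 b3 b4
  rw [v0, v1, v2] at b5
  refine ⟨fun q => ?_, fun q => ?_, fun q => ?_, fun q => ?_, ?_⟩
  · by_contra hc; push Not at hc; nlinarith
  · by_contra hc; push Not at hc; nlinarith
  · by_contra hc; push Not at hc; nlinarith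
  · by_contra hc; push Not at hc; nlinarith
  · rcases b5 with b | b | b | b
    · have q : p 0 + p 1 - p 2 = 1 := by
        rcases lt_or_eq_of_le c1 with q | q
        · have := a1 q; linarith
        · exact q
      exact Or.inl ⟨q, by
        have : r * (x 0 + x 1 - x 2) = 0 := by linarith
        exact (mul_eq_zero.1 this).resolve_left r0.ne'⟩
    · have q : p 0 - p 1 + p 2 = 1 := by
        rcases lt_or_eq_of_le c2 with q | q
        · have := a2 q; linarith
        · exact q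
      exact Or.inr (Or.inl ⟨q, by
        have : r * (x 0 - x 1 + x 2) = 0 := by linarith
        exact (mul_eq_zero.1 this).resolve_left r0.ne'⟩)
    · have q : -p 0 + p 1 + p 2 = 1 := by
        rcases lt_or_eq_of_le c3 with q | q
        · have := a3 q; linarith
        · exact q
      exact Or.inr (Or.inr (Or.inl ⟨q, by
        have : r * (-x 0 + x 1 + x 2) = 0 := by linarith
        exact (mul_eq_zero.1 this).resolve_left r0.ne'⟩))
    · have q : -p 0 - p 1 - p 2 = 1 := by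
        rcases lt_or_eq_of_le c4 with q | q
        · have := a4 q; linarith
        · exact q
      exact Or.inr (Or.inr (Or.inr ⟨q, by
        have : r * (-x 0 - x 1 - x 2) = 0 := by linarith
        exact (mul_eq_zero.1 this).resolve_left r0.ne'⟩))

/-- the local statement at `(a, b)` -/
def P (a b : ℝ) : Prop := ∀ x0 x1 x2 : ℝ, Act (tri b) (tri a) (tri (a + b)) x0 x1 x2 →
  ∃ w1 w2 : ℝ, dtri b w2 = x0 ∧ dtri a w1 = x1 ∧ dtri (a + b) (w1 + w2) = x2

lemma dtri_add_one (x h : ℝ) : dtri (x + 1) h = -dtri x h := by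
  obtain ⟨k, hk⟩ := cases_x x
  rcases hk with hk | hk | ⟨h1, h2⟩ | ⟨h1, h2⟩
  · rw [dtri_even hk, dtri_odd (k := k + 1) (by push_cast; linarith)]; ring
  · rw [dtri_odd hk, dtri_even (k := k) (by linarith)]; ring
  · rw [dtri_right h1 h2, dtri_left (k := k + 1) (by push_cast; linarith) (by push_cast; linarith)]; ring
  · rw [dtri_left h1 h2, dtri_right (k := k) (by linarith) (by linarith)]; ring

lemma dtri_add_even (x h : ℝ) (j : ℤ) : dtri (x + 2 * j) h = dtri x h := by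
  obtain ⟨k, hk⟩ := cases_x x
  rcases hk with hk | hk | ⟨h1, h2⟩ | ⟨h1, h2⟩
  · rw [dtri_even hk, dtri_even (k := k + j) (by push_cast; linarith)]
  · rw [dtri_odd hk, dtri_odd (k := k + j) (by push_cast; linarith)]
  · rw [dtri_right h1 h2, dtri_right (k := k + j) (by push_cast; linarith) (by push_cast; linarith)]
  · rw [dtri_left h1 h2, dtri_left (k := k + j) (by push_cast; linarith) (by push_cast; linarith)]

lemma dtri_neg_arg (x h : ℝ) : dtri (-x) h = dtri x (-h) := by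
  obtain ⟨k, hk⟩ := cases_x x
  rcases hk with hk | hk | ⟨h1, h2⟩ | ⟨h1, h2⟩
  · rw [dtri_even hk, dtri_even (k := -k) (by push_cast; linarith), abs_neg]
  · rw [dtri_odd hk, dtri_odd (k := -k + 1) (by push_cast; linarith), abs_neg]
  · rw [dtri_right h1 h2, dtri_left (k := -k) (by push_cast; linarith) (by push_cast; linarith)]; ring
  · rw [dtri_left h1 h2, dtri_right (k := -k) (by push_cast; linarith) (by push_cast; linarith)]; ring

lemma P_one_left {a b : ℝ} (h : P a b) : P (a + 1) b := by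
  intro x0 x1 x2 hx
  have e : a + 1 + b = a + b + 1 := by ring
  rw [e, tri_add_one, tri_add_one] at hx
  obtain ⟨h1, h2, h3, h4, h5⟩ := hx
  obtain ⟨w1, w2, k0, k1, k2⟩ := h x0 (-x1) (-x2) ⟨fun q => by have := h2 (by linarith); linarith,
    fun q => by have := h1 (by linarith); linarith, fun q => by have := h4 (by linarith); linarith,
    fun q => by have := h3 (by linarith); linarith, by
      rcases h5 with ⟨q, q'⟩ | ⟨q, q'⟩ | ⟨q, q'⟩ | ⟨q, q'⟩
      · exact Or.inr (Or.inl ⟨by linarith, by linarith⟩)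
      · exact Or.inl ⟨by linarith, by linarith⟩
      · exact Or.inr (Or.inr (Or.inr ⟨by linarith, by linarith⟩))
      · exact Or.inr (Or.inr (Or.inl ⟨by linarith, by linarith⟩))⟩
  exact ⟨w1, w2, k0, by rw [dtri_add_one, k1, neg_neg], by rw [e, dtri_add_one, k2, neg_neg]⟩

lemma P_swap {a b : ℝ} (h : P a b) : P b a := by
  intro x0 x1 x2 hx
  rw [add_comm b a] at hx ⊢
  obtain ⟨h1, h2, h3, h4, h5⟩ := hx
  obtain ⟨w1, w2, k0, k1, k2⟩ := h x1 x0 x2 ⟨fun q => by have := h1 (by linarith); linarith,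
    fun q => by have := h3 (by linarith); linarith, fun q => by have := h2 (by linarith); linarith,
    fun q => by have := h4 (by linarith); linarith, by
      rcases h5 with ⟨q, q'⟩ | ⟨q, q'⟩ | ⟨q, q'⟩ | ⟨q, q'⟩
      · exact Or.inl ⟨by linarith, by linarith⟩
      · exact Or.inr (Or.inr (Or.inl ⟨by linarith, by linarith⟩))
      · exact Or.inr (Or.inl ⟨by linarith, by linarith⟩)
      · exact Or.inr (Or.inr (Or.inr ⟨by linarith, by linarith⟩))⟩
  exact ⟨w2, w1, k1, k0, by rw [add_comm w2 w1]; exact k2⟩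

lemma P_even_left {a b : ℝ} (h : P a b) (j : ℤ) : P (a + 2 * j) b := by
  intro x0 x1 x2 hx
  have e : a + 2 * j + b = a + b + 2 * j := by ring
  rw [e, tri_add_even, tri_add_even] at hx
  obtain ⟨w1, w2, k0, k1, k2⟩ := h x0 x1 x2 hx
  exact ⟨w1, w2, k0, by rw [dtri_add_even, k1], by rw [e, dtri_add_even, k2]⟩

lemma P_int_left {a b : ℝ} (h : P a b) (k : ℤ) : P (a + k) b := by
  rcases Int.even_or_odd k with ⟨j, hj⟩ | ⟨j, hj⟩
  · have := P_even_left h j
    rw [hj]
    push_cast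
    rwa [← two_mul]
  · have := P_even_left (P_one_left h) j
    rw [hj]
    push_cast
    rwa [show a + (2 * (j : ℝ) + 1) = a + 1 + 2 * j by ring]

lemma P_int {a b : ℝ} (h : P a b) (k l : ℤ) : P (a + k) (b + l) :=
  P_swap (P_int_left (P_swap (P_int_left h k)) l)

lemma P_neg {a b : ℝ} (h : P a b) : P (-a) (-b) := by
  intro x0 x1 x2 hx
  have e : -a + -b = -(a + b) := by ring
  rw [e, tri_neg, tri_neg, tri_neg] at hx
  obtain ⟨w1, w2, k0, k1, k2⟩ := h x0 x1 x2 hx
  refine ⟨-w1, -w2, ?_, ?_, ?_⟩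
  · rw [dtri_neg_arg, neg_neg, k0]
  · rw [dtri_neg_arg, neg_neg, k1]
  · rw [e, dtri_neg_arg, ← neg_add, neg_neg, k2]

lemma base {a b : ℝ} (a0 : 0 ≤ a) (a1 : a < 1) (b0 : 0 ≤ b) (b1 : b < 1) (ab : a + b ≤ 1) : P a b := by
  intro x0 x1 x2 hx
  rw [tri_Icc a0 a1.le, tri_Icc b0 b1.le, tri_Icc (by linarith) ab] at hx
  obtain ⟨h1, h2, h3, h4, h5⟩ := hx
  have g1 := h1 (by ring)
  rcases lt_or_eq_of_le a0 with a2 | a2 <;> rcases lt_or_eq_of_le b0 with b2 | b2
  · have da : ∀ h, dtri a h = -2 * h := dtri_right (k := 0) (by simpa using a2) (by simpa using a1)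
    have db : ∀ h, dtri b h = -2 * h := dtri_right (k := 0) (by simpa using b2) (by simpa using b1)
    rcases lt_or_eq_of_le ab with ab' | ab'
    · have dab : ∀ h, dtri (a + b) h = -2 * h :=
        dtri_right (k := 0) (by simpa using by linarith) (by simpa using ab')
      have e : x0 + x1 - x2 = 0 := by
        rcases h5 with ⟨_, q⟩ | ⟨q', _⟩ | ⟨q', _⟩ | ⟨q', _⟩
        · exact q
        · exfalso; linarith
        · exfalso; linarith
        · exfalso; linarith
      exact ⟨-x1 / 2, -x0 / 2, by rw [db]; ring, by rw [da]; ring, by rw [dab]; linarith⟩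
    · have dab : ∀ h, dtri (a + b) h = 2 * |h| :=
        dtri_odd (k := 1) (by push_cast; linarith)
      have g4 := h4 (by linarith)
      refine ⟨-x1 / 2, -x0 / 2, by rw [db]; ring, by rw [da]; ring, ?_⟩
      rw [dab]
      rcases h5 with ⟨_, q⟩ | ⟨q', _⟩ | ⟨q', _⟩ | ⟨_, q⟩
      · rw [abs_of_nonpos (by linarith)]; linarith
      · exfalso; linarith
      · exfalso; linarith
      · rw [abs_of_nonneg (by linarith)]; linarith
  · subst b2
    have da : ∀ h, dtri a h = -2 * h := dtri_right (k := 0) (by simpa using a2) (by simpa using a1)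
    have db : ∀ h, dtri 0 h = -2 * |h| := dtri_even (k := 0) (by simp)
    rw [add_zero]
    have g2 := h2 (by ring)
    refine ⟨-x1 / 2, (x1 - x2) / 2, ?_, by rw [da]; ring, by rw [da]; ring⟩
    rw [db]
    rcases h5 with ⟨_, q⟩ | ⟨_, q⟩ | ⟨q', _⟩ | ⟨q', _⟩
    · rw [abs_of_nonneg (by linarith)]; linarith
    · rw [abs_of_nonpos (by linarith)]; linarith
    · exfalso; linarith
    · exfalso; linarith
  · subst a2
    have db : ∀ h, dtri b h = -2 * h := dtri_right (k := 0) (by simpa using b2) (by simpa using b1)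
    have da : ∀ h, dtri 0 h = -2 * |h| := dtri_even (k := 0) (by simp)
    rw [zero_add]
    have g3 := h3 (by ring)
    refine ⟨(x0 - x2) / 2, -x0 / 2, by rw [db]; ring, ?_, by rw [db]; ring⟩
    rw [da]
    rcases h5 with ⟨_, q⟩ | ⟨q', _⟩ | ⟨_, q⟩ | ⟨q', _⟩
    · rw [abs_of_nonneg (by linarith)]; linarith
    · exfalso; linarith
    · rw [abs_of_nonpos (by linarith)]; linarith
    · exfalso; linarith
  · subst a2
    subst b2
    have da : ∀ h, dtri 0 h = -2 * |h| := dtri_even (k := 0) (by simp)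
    rw [add_zero]
    have g2 := h2 (by ring)
    have g3 := h3 (by ring)
    rcases h5 with ⟨_, q⟩ | ⟨_, q⟩ | ⟨_, q⟩ | ⟨q', _⟩
    · refine ⟨-x1 / 2, -x0 / 2, ?_, ?_, ?_⟩
      · rw [da, abs_of_nonneg (by linarith)]; ring
      · rw [da, abs_of_nonneg (by linarith)]; ring
      · rw [da, abs_of_nonneg (by linarith)]; linarith
    · refine ⟨-x1 / 2, x0 / 2, ?_, ?_, ?_⟩
      · rw [da, abs_of_nonpos (by linarith)]; ring
      · rw [da, abs_of_nonneg (by linarith)]; ring
      · rw [da, abs_of_nonneg (by linarith)]; linarith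
    · refine ⟨x1 / 2, -x0 / 2, ?_, ?_, ?_⟩
      · rw [da, abs_of_nonneg (by linarith)]; ring
      · rw [da, abs_of_nonpos (by linarith)]; ring
      · rw [da, abs_of_nonneg (by linarith)]; linarith
    · exfalso; linarith

lemma P_all (a b : ℝ) : P a b := by
  have ha0 := Int.floor_le a
  have ha1 := Int.lt_floor_add_one a
  have hb0 := Int.floor_le b
  have hb1 := Int.lt_floor_add_one b
  rcases le_or_gt (a - ⌊a⌋ + (b - ⌊b⌋)) 1 with h | h
  · have := P_int (base (a := a - ⌊a⌋) (b := b - ⌊b⌋) (by linarith) (by linarith) (by linarith)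
      (by linarith) h) ⌊a⌋ ⌊b⌋
    rwa [sub_add_cancel, sub_add_cancel] at this
  · have h1 := base (a := 1 - (a - ⌊a⌋)) (b := 1 - (b - ⌊b⌋)) (by linarith) (by linarith) (by linarith)
      (by linarith) (by linarith)
    have := P_int (P_neg h1) (⌊a⌋ + 1) (⌊b⌋ + 1)
    push_cast at this
    rwa [show -(1 - (a - (⌊a⌋ : ℝ))) + (⌊a⌋ + 1) = a by ring,
      show -(1 - (b - (⌊b⌋ : ℝ))) + (⌊b⌋ + 1) = b by ring] at this

theorem link (hF : TaskFrontier) : TaskLink := by
  intro s x hx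
  obtain ⟨w1, w2, h0, h1, h2⟩ := P_all s.1 s.2 (x 0) (x 1) (x 2) (act_of hF (F_surface s).1 hx)
  have e : DF s (w1, w2) = x := e3_eq h0 h1 h2
  refine ⟨(w1, w2), ?_, e⟩
  rw [← DF_norm s, e, hx.1, one_pow]

end Pool.Agent.Helper129.QG
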