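import Pool.Agent.Helper129.QG.Angle

set_option autoImplicit false

namespace Pool.Agent.Helper129.QG

open Set

lemma W_zero (w : ℝ × ℝ) : W w 0 = w := by unfold W; simp

lemma W_pi (w : ℝ × ℝ) : W w Real.pi = -w := by unfold W; simp

lemma W_add_pi (w : ℝ × ℝ) (θ : ℝ) : W w (θ + Real.pi) = -W w θ := by
  unfold W
  rw [Real.cos_add_pi, Real.sin_add_pi]
  module

lemma W_add_two_pi (w : ℝ × ℝ) (θ : ℝ) : W w (θ + 2 * Real.pi) = W w θ := by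
  unfold W
  rw [Real.cos_add_two_pi, Real.sin_add_two_pi]

lemma W_inj {w : ℝ × ℝ} (hw : Q w = 1) {θ θ' : ℝ} (h : W w θ = W w θ')
    (h1 : -(2 * Real.pi) < θ - θ') (h2 : θ - θ' < 2 * Real.pi) : θ = θ' := by
  have h3 := Q_W_sub hw θ θ'
  rw [h, sub_self] at h3
  have h4 : Q 0 = 0 := by unfold Q; simp
  rw [h4] at h3
  have h5 : Real.cos (θ - θ') = 1 := by linarith
  rw [Real.cos_eq_one_iff_of_lt_of_lt h1 h2] at h5
  linarith

/-- at a point which is not a vertex -/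
lemma side_smooth (hF : TaskFrontier) (hL : TaskLink) {s w : ℝ × ℝ} (hs : ¬ IsV s) (hw : Q w = 1) :
    SideAngles tet (F s) (DF s w) (DF s (-w)) := by
  have hpi := Real.pi_pos
  refine ⟨fun θ => DF s (W w θ), 2 * Real.pi, Real.pi, by linarith, c_lip hw, fun θ => ?_, ?_, ?_, ?_, ?_,
    hpi.le, by linarith, le_rfl, by linarith⟩
  · show DF s (W w (θ + 2 * Real.pi)) = DF s (W w θ)
    rw [W_add_two_pi]
  · intro θ h1 θ' h2 h
    have h3 := DF_inj hs h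
    exact W_inj hw h3 (by linarith [h1.1, h2.2]) (by linarith [h1.2, h2.1])
  · rw [dir_eq hF hL]
    ext x
    constructor
    · rintro ⟨θ, _, rfl⟩
      exact ⟨_, Q_W hw θ, rfl⟩
    · rintro ⟨v, hv, rfl⟩
      obtain ⟨θ, h0, h1, h2⟩ := W_surj hw hv
      exact ⟨θ, ⟨h0, h1⟩, by show DF s (W w θ) = DF s v; rw [h2]⟩
  · show DF s (W w 0) = DF s w
    rw [W_zero]
  · show DF s (W w Real.pi) = DF s (-w)
    rw [W_pi]

/-- at a vertex -/
lemma side_vertex (hF : TaskFrontier) (hL : TaskLink) {s w v : ℝ × ℝ} (hs : IsV s) (hw : Q w = 1)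
    (hv : Q v = 1) : SideAngles tet (F s) (DF s w) (DF s v) := by
  have hpi := Real.pi_pos
  -- reduce the angle modulo `π`
  have red : ∀ v : ℝ × ℝ, Q v = 1 → ∃ θ : ℝ, 0 ≤ θ ∧ θ < Real.pi ∧ DF s (W w θ) = DF s v := by
    intro v hv
    obtain ⟨θ, h0, h1, h2⟩ := W_surj hw hv
    rcases lt_or_ge θ Real.pi with h3 | h3
    · exact ⟨θ, h0, h3, by rw [h2]⟩
    · refine ⟨θ - Real.pi, by linarith, by linarith, ?_⟩
      have h4 := W_add_pi w (θ - Real.pi)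
      rw [sub_add_cancel, h2] at h4
      rw [h4, DF_neg hs]
  obtain ⟨a, ha0, ha1, ha2⟩ := red v hv
  refine ⟨fun θ => DF s (W w θ), Real.pi, a, hpi, c_lip hw, fun θ => ?_, ?_, ?_, ?_, ha2,
    ha0, ha1.le, ha1.le, by linarith⟩
  · show DF s (W w (θ + Real.pi)) = DF s (W w θ)
    rw [W_add_pi, DF_neg hs]
  · intro θ h1 θ' h2 h
    rcases DF_pm h with h3 | h3
    · exact W_inj hw h3 (by linarith [h1.1, h2.2]) (by linarith [h1.2, h2.1])
    · rw [← W_add_pi] at h3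
      exfalso
      rcases le_total θ θ' with h4 | h4
      · have := W_inj hw h3 (by linarith [h1.1, h2.2]) (by linarith [h1.2, h2.1])
        linarith [h1.1, h1.2, h2.1, h2.2]
      · have := W_inj hw h3 (by linarith [h1.1, h2.2]) (by linarith [h1.2, h2.1])
        linarith [h1.1, h1.2, h2.1, h2.2]
  · rw [dir_eq hF hL]
    ext x
    constructor
    · rintro ⟨θ, _, rfl⟩
      exact ⟨_, Q_W hw θ, rfl⟩
    · rintro ⟨v', hv', rfl⟩
      obtain ⟨θ, h0, h1, h2⟩ := red v' hv'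
      exact ⟨θ, ⟨h0, h1⟩, h2⟩
  · show DF s (W w 0) = DF s w
    rw [W_zero]

lemma Q_pos {w : ℝ × ℝ} (h : w ≠ 0) : 0 < Q w := by
  rcases lt_or_eq_of_le (show 0 ≤ Q w by
    unfold Q; nlinarith [sq_nonneg (2 * w.1 + w.2), sq_nonneg w.2]) with h1 | h1
  · exact h1
  · exact absurd (Q_eq_zero h1.symm) h

lemma Q_smul (a : ℝ) (w : ℝ × ℝ) : Q (a • w) = a ^ 2 * Q w := by
  unfold Q
  simp only [Prod.smul_fst, Prod.smul_snd, smul_eq_mul]
  ring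

/-- the unit vector -/
noncomputable def un (w : ℝ × ℝ) : ℝ × ℝ := (√(Q w))⁻¹ • w

lemma Q_un {w : ℝ × ℝ} (h : w ≠ 0) : Q (un w) = 1 := by
  have h1 := Q_pos h
  unfold un
  rw [Q_smul, inv_pow, Real.sq_sqrt h1.le, inv_mul_cancel₀ h1.ne']

lemma un_neg (w : ℝ × ℝ) : un (-w) = -un w := by
  unfold un
  have : Q (-w) = Q w := by unfold Q; simp
  rw [this, smul_neg]

lemma smul_un {w : ℝ × ℝ} (h : w ≠ 0) (s : ℝ × ℝ) : √(Q w) • DF s (un w) = DF s w := by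
  have h1 := Q_pos h
  rw [← DF_smul _ (Real.sqrt_nonneg _)]
  unfold un
  rw [smul_smul, mul_inv_cancel₀ (Real.sqrt_pos.2 h1).ne', one_smul]

/-- the forward direction of `F ∘ σ` if `σ (t + r) = σ t + r w` for small `r ≥ 0` -/
lemma forward_of {σ : ℝ → ℝ × ℝ} {t : ℝ} {w : ℝ × ℝ} (hw : w ≠ 0)
    (h : ∃ ε : ℝ, 0 < ε ∧ ∀ r : ℝ, 0 ≤ r → r < ε → σ (t + r) = σ t + r • w) :
    Forward (fun z => F (σ z)) t (DF (σ t) (un w)) := by
  obtain ⟨ε, hε, h⟩ := h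
  obtain ⟨δ, hδ, h2⟩ := F_dir (σ t) w
  refine ⟨DF_norm_one (Q_un hw), √(Q w), min ε δ, Real.sqrt_pos.2 (Q_pos hw), lt_min hε hδ,
    fun r h0 h1 => ?_⟩
  show F (σ (t + r)) = F (σ t) + (√(Q w) * r) • DF (σ t) (un w)
  rw [h r h0 (lt_of_lt_of_le h1 (min_le_left _ _)), h2 r h0 (lt_of_lt_of_le h1 (min_le_right _ _)),
    ← smul_un hw, smul_smul, mul_comm]

lemma backward_of {σ : ℝ → ℝ × ℝ} {t : ℝ} {w : ℝ × ℝ} (hw : w ≠ 0)
    (h : ∃ ε : ℝ, 0 < ε ∧ ∀ r : ℝ, 0 ≤ r → r < ε → σ (t - r) = σ t + r • w) :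
    Backward (fun z => F (σ z)) t (DF (σ t) (un w)) := by
  obtain ⟨ε, hε, h⟩ := h
  obtain ⟨δ, hδ, h2⟩ := F_dir (σ t) w
  refine ⟨DF_norm_one (Q_un hw), √(Q w), min ε δ, Real.sqrt_pos.2 (Q_pos hw), lt_min hε hδ,
    fun r h0 h1 => ?_⟩
  show F (σ (t - r)) = F (σ t) + (√(Q w) * r) • DF (σ t) (un w)
  rw [h r h0 (lt_of_lt_of_le h1 (min_le_left _ _)), h2 r h0 (lt_of_lt_of_le h1 (min_le_right _ _)),
    ← smul_un hw, smul_smul, mul_comm]

end Pool.Agent.Helper129.QG
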