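import Pool.Agent.Helper129.QG.Defs

set_option autoImplicit false

namespace Pool.Agent.Helper129.QG

open Set

lemma fl_bd (x : ℝ) : 2 * (⌊(x + 1) / 2⌋ : ℝ) - 1 ≤ x ∧ x < 2 * ⌊(x + 1) / 2⌋ + 1 := by
  have h1 := Int.floor_le ((x + 1) / 2)
  have h2 := Int.lt_floor_add_one ((x + 1) / 2)
  constructor <;> linarith

lemma fl_eq {x : ℝ} {k : ℤ} (h1 : 2 * (k : ℝ) - 1 ≤ x) (h2 : x < 2 * k + 1) : ⌊(x + 1) / 2⌋ = k := by
  rw [Int.floor_eq_iff]
  constructor <;> linarith

lemma tri_eq {x : ℝ} {k : ℤ} (h : |x - 2 * k| ≤ 1) : tri x = 1 - 2 * |x - 2 * k| := by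
  rw [abs_le] at h
  rcases lt_or_eq_of_le (show x ≤ 2 * k + 1 by linarith) with h2 | h2
  · unfold tri
    rw [fl_eq (k := k) (by linarith) h2]
  · unfold tri
    rw [fl_eq (k := k + 1) (by push_cast; linarith) (by push_cast; linarith)]
    subst h2
    push_cast
    rw [show (2 * (k : ℝ) + 1 - 2 * (k + 1)) = -1 by ring, show (2 * (k : ℝ) + 1 - 2 * k) = 1 by ring]
    norm_num

lemma tri_right {x : ℝ} {k : ℤ} (h1 : 2 * (k : ℝ) ≤ x) (h2 : x ≤ 2 * k + 1) :
    tri x = 1 - 2 * (x - 2 * k) := by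
  rw [tri_eq (k := k) (by rw [abs_le]; constructor <;> linarith), abs_of_nonneg (by linarith)]

lemma tri_left {x : ℝ} {k : ℤ} (h1 : 2 * (k : ℝ) - 1 ≤ x) (h2 : x ≤ 2 * k) :
    tri x = 1 + 2 * (x - 2 * k) := by
  rw [tri_eq (k := k) (by rw [abs_le]; constructor <;> linarith), abs_of_nonpos (by linarith)]
  ring

lemma dtri_even {x : ℝ} {k : ℤ} (hx : x = 2 * k) (h : ℝ) : dtri x h = -2 * |h| := by
  unfold dtri
  rw [fl_eq (k := k) (by linarith) (by linarith), if_pos hx]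

lemma dtri_odd {x : ℝ} {k : ℤ} (hx : x = 2 * k - 1) (h : ℝ) : dtri x h = 2 * |h| := by
  unfold dtri
  rw [fl_eq (k := k) (by linarith) (by linarith), if_neg (by linarith), if_pos hx]

lemma dtri_right {x : ℝ} {k : ℤ} (h1 : 2 * (k : ℝ) < x) (h2 : x < 2 * k + 1) (h : ℝ) :
    dtri x h = -2 * h := by
  unfold dtri
  rw [fl_eq (k := k) (by linarith) h2, if_neg (by linarith), if_neg (by linarith), if_pos h1]

lemma dtri_left {x : ℝ} {k : ℤ} (h1 : 2 * (k : ℝ) - 1 < x) (h2 : x < 2 * k) (h : ℝ) :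
    dtri x h = 2 * h := by
  unfold dtri
  rw [fl_eq (k := k) (by linarith) (by linarith), if_neg (by linarith), if_neg (by linarith),
    if_neg (by linarith)]

/-- the four cases -/
lemma cases_x (x : ℝ) : ∃ k : ℤ, x = 2 * k ∨ x = 2 * k - 1 ∨ (2 * (k : ℝ) < x ∧ x < 2 * k + 1) ∨
    (2 * (k : ℝ) - 1 < x ∧ x < 2 * k) := by
  obtain ⟨h1, h2⟩ := fl_bd x
  refine ⟨⌊(x + 1) / 2⌋, ?_⟩
  rcases lt_trichotomy x (2 * (⌊(x + 1) / 2⌋ : ℝ)) with h | h | h
  · rcases eq_or_lt_of_le h1 with h3 | h3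
    · exact Or.inr (Or.inl h3.symm)
    · exact Or.inr (Or.inr (Or.inr ⟨h3, h⟩))
  · exact Or.inl h
  · exact Or.inr (Or.inr (Or.inl ⟨h, h2⟩))

lemma small {a h : ℝ} (ha : 0 < a) : ∃ ε : ℝ, 0 < ε ∧ ∀ r : ℝ, 0 ≤ r → r < ε → |r * h| ≤ a := by
  refine ⟨a / (|h| + 1), by positivity, fun r h0 h1 => ?_⟩
  rw [abs_mul, abs_of_nonneg h0]
  have h2 : r * (|h| + 1) < a := by
    rwa [lt_div_iff₀ (by positivity)] at h1
  nlinarith [abs_nonneg h]

lemma tri_dir (x h : ℝ) : ∃ ε : ℝ, 0 < ε ∧ ∀ r : ℝ, 0 ≤ r → r < ε →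
    tri (x + r * h) = tri x + r * dtri x h := by
  obtain ⟨k, hk⟩ := cases_x x
  rcases hk with hk | hk | ⟨h1, h2⟩ | ⟨h1, h2⟩
  · obtain ⟨ε, hε, hs⟩ := small (a := 1) (h := h) one_pos
    refine ⟨ε, hε, fun r h0 h3 => ?_⟩
    have h4 := hs r h0 h3
    rw [dtri_even hk, tri_eq (k := k) (x := x + r * h) (by
      rw [hk, show 2 * (k : ℝ) + r * h - 2 * k = r * h by ring]; exact h4),
      tri_eq (k := k) (x := x) (by rw [hk]; norm_num), hk,
      show 2 * (k : ℝ) + r * h - 2 * k = r * h by ring, abs_mul, abs_of_nonneg h0]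
    simp
    ring
  · obtain ⟨ε, hε, hs⟩ := small (a := 1) (h := h) one_pos
    refine ⟨ε, hε, fun r h0 h3 => ?_⟩
    have h4 := hs r h0 h3
    rw [abs_le] at h4
    rw [dtri_odd hk, tri_left (k := k) (x := x) (by linarith) (by linarith)]
    rcases le_total 0 h with h5 | h5
    · have h6 : 0 ≤ r * h := mul_nonneg h0 h5
      rw [tri_left (k := k) (by linarith) (by linarith), abs_of_nonneg h5]
      ring
    · have h6 : r * h ≤ 0 := mul_nonpos_of_nonneg_of_nonpos h0 h5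
      rw [tri_right (k := k - 1) (by push_cast; linarith) (by push_cast; linarith), abs_of_nonpos h5, hk]
      push_cast
      ring
  · obtain ⟨ε, hε, hs⟩ := small (a := min (x - 2 * k) (2 * k + 1 - x)) (h := h)
      (lt_min (by linarith) (by linarith))
    refine ⟨ε, hε, fun r h0 h3 => ?_⟩
    have h4 := hs r h0 h3
    have h5 := h4.trans (min_le_left _ _)
    have h6 := h4.trans (min_le_right _ _)
    rw [abs_le] at h5 h6
    rw [dtri_right h1 h2, tri_right (k := k) h1.le h2.le, tri_right (k := k) (by linarith) (by linarith)]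
    ring
  · obtain ⟨ε, hε, hs⟩ := small (a := min (x - (2 * k - 1)) (2 * k - x)) (h := h)
      (lt_min (by linarith) (by linarith))
    refine ⟨ε, hε, fun r h0 h3 => ?_⟩
    have h4 := hs r h0 h3
    have h5 := h4.trans (min_le_left _ _)
    have h6 := h4.trans (min_le_right _ _)
    rw [abs_le] at h5 h6
    rw [dtri_left h1 h2, tri_left (k := k) h1.le h2.le, tri_left (k := k) (by linarith) (by linarith)]
    ring

lemma dtri_abs (x h : ℝ) : |dtri x h| = 2 * |h| := by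
  obtain ⟨k, hk⟩ := cases_x x
  rcases hk with hk | hk | ⟨h1, h2⟩ | ⟨h1, h2⟩
  · rw [dtri_even hk]; simp [abs_mul]
  · rw [dtri_odd hk]; simp [abs_mul]
  · rw [dtri_right h1 h2]; simp [abs_mul]
  · rw [dtri_left h1 h2]; simp [abs_mul]

lemma dtri_sq (x h : ℝ) : dtri x h ^ 2 = 4 * h ^ 2 := by
  rw [← sq_abs, dtri_abs, mul_pow, sq_abs]; ring

lemma dtri_lip (x h h' : ℝ) : |dtri x h - dtri x h'| ≤ 2 * |h - h'| := by
  obtain ⟨k, hk⟩ := cases_x x
  rcases hk with hk | hk | ⟨h1, h2⟩ | ⟨h1, h2⟩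
  · rw [dtri_even hk, dtri_even hk, show -2 * |h| - -2 * |h'| = -2 * (|h| - |h'|) by ring, abs_mul]
    have := abs_abs_sub_abs_le h h'
    norm_num
    linarith
  · rw [dtri_odd hk, dtri_odd hk, show 2 * |h| - 2 * |h'| = 2 * (|h| - |h'|) by ring, abs_mul]
    have := abs_abs_sub_abs_le h h'
    norm_num
    linarith
  · rw [dtri_right h1 h2, dtri_right h1 h2, show -2 * h - -2 * h' = -2 * (h - h') by ring, abs_mul]
    norm_num
  · rw [dtri_left h1 h2, dtri_left h1 h2, show 2 * h - 2 * h' = 2 * (h - h') by ring, abs_mul]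
    norm_num

lemma dtri_lip_sq (x h h' : ℝ) : (dtri x h - dtri x h') ^ 2 ≤ 4 * (h - h') ^ 2 := by
  have h1 := dtri_lip x h h'
  have h2 : |dtri x h - dtri x h'| ^ 2 ≤ (2 * |h - h'|) ^ 2 :=
    pow_le_pow_left₀ (abs_nonneg _) h1 2
  rw [sq_abs, mul_pow, sq_abs] at h2
  linarith

lemma dtri_smul (x : ℝ) {a : ℝ} (ha : 0 ≤ a) (h : ℝ) : dtri x (a * h) = a * dtri x h := by
  obtain ⟨k, hk⟩ := cases_x x
  rcases hk with hk | hk | ⟨h1, h2⟩ | ⟨h1, h2⟩
  · rw [dtri_even hk, dtri_even hk, abs_mul, abs_of_nonneg ha]; ring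
  · rw [dtri_odd hk, dtri_odd hk, abs_mul, abs_of_nonneg ha]; ring
  · rw [dtri_right h1 h2, dtri_right h1 h2]; ring
  · rw [dtri_left h1 h2, dtri_left h1 h2]; ring

/-- `x` is an integer -/
def IsI (x : ℝ) : Prop := ∃ k : ℤ, x = k

lemma dtri_inj {x : ℝ} (hx : ¬ IsI x) {h h' : ℝ} (e : dtri x h = dtri x h') : h = h' := by
  obtain ⟨k, hk⟩ := cases_x x
  rcases hk with hk | hk | ⟨h1, h2⟩ | ⟨h1, h2⟩
  · exact absurd ⟨2 * k, by push_cast; exact hk⟩ hx
  · exact absurd ⟨2 * k - 1, by push_cast; exact hk⟩ hx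
  · rw [dtri_right h1 h2, dtri_right h1 h2] at e; linarith
  · rw [dtri_left h1 h2, dtri_left h1 h2] at e; linarith

lemma dtri_abs_inj {x h h' : ℝ} (e : dtri x h = dtri x h') : |h| = |h'| := by
  have := congrArg (fun z => |z|) e
  simp only [dtri_abs] at this
  linarith

lemma dtri_neg {x : ℝ} (hx : IsI x) (h : ℝ) : dtri x (-h) = dtri x h := by
  obtain ⟨k, hk⟩ := cases_x x
  rcases hk with hk | hk | ⟨h1, h2⟩ | ⟨h1, h2⟩
  · rw [dtri_even hk, dtri_even hk, abs_neg]
  · rw [dtri_odd hk, dtri_odd hk, abs_neg]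
  · obtain ⟨m, hm⟩ := hx
    exfalso
    rw [hm] at h1 h2
    have h3 : 2 * k < m := by exact_mod_cast h1
    have h4 : m < 2 * k + 1 := by exact_mod_cast h2
    omega
  · obtain ⟨m, hm⟩ := hx
    exfalso
    rw [hm] at h1 h2
    have h3 : 2 * k - 1 < m := by exact_mod_cast h1
    have h4 : m < 2 * k := by exact_mod_cast h2
    omega

lemma tri_add_even (x : ℝ) (j : ℤ) : tri (x + 2 * j) = tri x := by
  unfold tri
  rw [show (x + 2 * (j : ℝ) + 1) / 2 = (x + 1) / 2 + j by ring, Int.floor_add_intCast]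
  push_cast
  rw [show x + 2 * (j : ℝ) - 2 * (⌊(x + 1) / 2⌋ + j) = x - 2 * ⌊(x + 1) / 2⌋ by ring]

lemma tri_add_one (x : ℝ) : tri (x + 1) = -tri x := by
  obtain ⟨h1, h2⟩ := fl_bd x
  set k := ⌊(x + 1) / 2⌋
  rcases le_total x (2 * (k : ℝ)) with h | h
  · rw [tri_left (k := k) h1 h, tri_right (k := k) (by linarith) (by linarith)]
    ring
  · rw [tri_right (k := k) h h2.le, tri_left (k := k + 1) (by push_cast; linarith) (by push_cast; linarith)]
    push_cast
    ring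

lemma tri_neg (x : ℝ) : tri (-x) = tri x := by
  obtain ⟨h1, h2⟩ := fl_bd x
  set k := ⌊(x + 1) / 2⌋
  rw [tri_eq (k := k) (x := x) (by rw [abs_le]; constructor <;> linarith),
    tri_eq (k := -k) (x := -x) (by push_cast; rw [abs_le]; constructor <;> linarith)]
  push_cast
  rw [show -x - 2 * -(k : ℝ) = -(x - 2 * k) by ring, abs_neg]

lemma tri_Icc {x : ℝ} (h0 : 0 ≤ x) (h1 : x ≤ 1) : tri x = 1 - 2 * x := by
  rw [tri_right (k := 0) (by simpa using h0) (by simpa using h1)]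
  simp

/-- equal values -/
lemma tri_inj {x y : ℝ} (h : tri x = tri y) : ∃ k : ℤ, x - y = 2 * k ∨ x + y = 2 * k := by
  obtain ⟨h1, h2⟩ := fl_bd x
  obtain ⟨h3, h4⟩ := fl_bd y
  unfold tri at h
  set a := ⌊(x + 1) / 2⌋
  set b := ⌊(y + 1) / 2⌋
  have h5 : |x - 2 * a| = |y - 2 * b| := by linarith
  rcases abs_eq_abs.1 h5 with h6 | h6
  · exact ⟨a - b, Or.inl (by push_cast; linarith)⟩
  · exact ⟨a + b, Or.inr (by push_cast; linarith)⟩

lemma tri_continuous : Continuous tri := by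
  have h : ∀ x y : ℝ, |tri x - tri y| ≤ 2 * |x - y| := by
    intro x y
    -- distance to the even integers
    have key : ∀ x y : ℝ, tri y ≤ tri x + 2 * |x - y| := by
      intro x y
      obtain ⟨h1, h2⟩ := fl_bd x
      obtain ⟨h3, h4⟩ := fl_bd y
      unfold tri
      set a := ⌊(x + 1) / 2⌋
      set b := ⌊(y + 1) / 2⌋
      -- |x - 2a| ≤ |x - 2b|
      have h5 : |x - 2 * a| ≤ |x - 2 * b| := by
        rcases lt_trichotomy a b with h | h | h
        · have : (a : ℝ) + 1 ≤ b := by exact_mod_cast h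
          rw [abs_le]
          constructor
          · have := neg_abs_le (x - 2 * b)
            have h7 : |x - 2 * (b : ℝ)| = 2 * b - x := by
              rw [abs_of_nonpos (by linarith)]; ring
            linarith
          · have h7 : |x - 2 * (b : ℝ)| = 2 * b - x := by
              rw [abs_of_nonpos (by linarith)]; ring
            linarith
        · rw [h]
        · have : (b : ℝ) + 1 ≤ a := by exact_mod_cast h
          have h7 : |x - 2 * (b : ℝ)| = x - 2 * b := abs_of_nonneg (by linarith)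
          rw [abs_le]
          constructor <;> linarith
      have h6 : |x - 2 * (b : ℝ)| ≤ |x - y| + |y - 2 * b| := by
        have := abs_add_le (x - y) (y - 2 * b)
        rwa [show x - y + (y - 2 * (b : ℝ)) = x - 2 * b by ring] at this
      linarith
    rw [abs_le]
    constructor
    · have := key x y; linarith
    · have := key y x
      rw [abs_sub_comm y x] at this
      linarith
  have hl : LipschitzWith 2 tri := by
    refine LipschitzWith.of_dist_le_mul fun x y => ?_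
    rw [Real.dist_eq, Real.dist_eq]
    exact_mod_cast h x y
  exact hl.continuous

end Pool.Agent.Helper129.QG
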